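import Pool.Agent.H178R3.CayLink

/-!
# A lattice simplex of dimension 126 and degree at most 36 with no long Cayley decomposition

The bound `d + 1 - ⌊(17 s - 4) / 6⌋` for the number of factors of a Cayley decomposition of a
`d`-dimensional lattice polytope of degree `s` fails: the lattice simplex attached to the dual of
the two-error-correcting BCH code of length 127 has dimension 126 and degree `s ≤ 36`, but it is
not a Cayley polytope of 26 or more lattice polytopes.
-/

set_option autoImplicit false

open Set Pointwise Pool.Agent.H178R3.Cay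

namespace Pool.Agent.Results.MP_c7d842_co.CayleyDegree

/-- **Negative answer to Q1.** There are `s ≥ 1`, `d > (17 s - 4) / 6` and a `d`-dimensional lattice
polytope `P ⊆ ℝ^d` of degree `s` that is not a Cayley polytope of `r` lattice polytopes for any
`r ≥ d + 1 - ⌊(17 s - 4) / 6⌋`. -/
theorem result : ∃ (s d : ℕ) (P : Set (Fin d → ℝ)),
    1 ≤ s ∧ (17 * s - 4 : ℚ) / 6 < d ∧ IsLatticePolytope P ∧ (interior P).Nonempty ∧
    HasDegree P s ∧
    ∀ r : ℕ, (d : ℤ) + 1 - ⌊(17 * s - 4 : ℚ) / 6⌋ ≤ r → ¬ IsCayley P r := by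
  obtain ⟨s, hs1, hs2, hdeg⟩ := exists_degree matA matB (w := 72) (by norm_num)
    (fun b => (wt_ok b).2) (fun b => (wt_ok b).1)
  have hs : s ≤ 36 := by omega
  have hsq : (s : ℚ) ≤ 36 := by exact_mod_cast hs
  refine ⟨s, 14 + 112, simplex matA, hs1, ?_, simplex_isLatticePolytope matA, ?_, hdeg, ?_⟩
  · push_cast
    linarith
  · obtain ⟨x, hx, _⟩ := exists_interior_point matA (by norm_num)
    rw [interior_smul₀ (by norm_num)] at hx
    obtain ⟨y, hy, _⟩ := hx
    exact ⟨y, hy⟩
  · intro r hr
    apply not_isCayley matA matB (q := 4) even_row no_dep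
    have hfl : ⌊(17 * s - 4 : ℚ) / 6⌋ ≤ 101 := by
      have : ⌊(17 * s - 4 : ℚ) / 6⌋ < 102 := by
        rw [Int.floor_lt]
        push_cast
        linarith
      omega
    push_cast at hr
    omega

end Pool.Agent.Results.MP_c7d842_co.CayleyDegree
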